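import Pool.Agent.helper62.EN.SpecP
import Pool.Agent.helper62.QU.INV
import Pool.Agent.helper72.QU.DOM
import Pool.Agent.helper91.QU.DOB

/-!
# MP_07c750, project EN: row FNA (any fundamental domain)
-/

set_option autoImplicit false

open scoped MatrixGroups ContDiff Topology UpperHalfPlane ComplexConjugate
open UpperHalfPlane MeasureTheory Filter Set

namespace Pool.Agent.EN

open Pool.Agent.RS

theorem FNA_mk (Γ : Subgroup SL(2, ℝ)) (γ : Γ) (z : ℍ) : mkM Γ (γ • z) = mkM Γ z :=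
  Quotient.sound (s := MulAction.orbitRel Γ ℍ) (MulAction.orbitRel_apply.mpr ⟨γ, rfl⟩)

theorem FNA_proof (h1 : FNC_stmt) : FNA_stmt := by
  intro Γ F r N s φ β ν hΓ hF hr hE hN hb hν hV
  obtain ⟨F₀, hF₀⟩ := QU.DOM Γ hΓ
  obtain ⟨hc, hfd, -, -, hag, -⟩ := QU.DOB QU.INV Γ F₀ hΓ hF₀
  haveI := hc
  haveI := QU.INV.2.1 Γ
  have hIF : ∀ f : ℍ → ℝ, (∀ (γ : Γ) z, f (γ • z) = f z) → ∫ z in F, f z = ∫ z in F₀, f z :=
    (hag F hF).2
  have hE₀ : ∀ k, EFam Γ F₀ (r k) (N k) (s k) (φ k) := by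
    intro k
    refine ⟨(hE k).1, (hE k).2.1, fun i j => ?_⟩
    rw [← (hE k).2.2 i j]
    refine hfd.setIntegral_eq hF (fun γ z => ?_)
    rw [((hE k).2.1 i).2.1 γ z, ((hE k).2.1 j).2.1 γ z]
  refine h1 Γ F₀ r N s φ β ν hΓ hF₀ hr hE₀ hN hb hν (fun V hVc => ?_)
  have h2 := hV V hVc
  refine h2.congr (fun k => ?_)
  refine congrArg (fun t : ℝ => t / (N k : ℝ)) (Finset.sum_congr rfl (fun j _ => ?_))
  exact hIF (fun z => V (mkM Γ z) * ‖φ k j z‖ ^ 2) (fun γ z => by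
    rw [FNA_mk Γ γ z, ((hE k).2.1 j).2.1 γ z])

end Pool.Agent.EN
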