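import Pool.Agent.helper62.EN.SpecP

/-!
# MP_07c750, project EN: row NKL (the length of the orbits)
-/

set_option autoImplicit false

open scoped Topology
open MeasureTheory Filter Set

namespace Pool.Agent.EN

theorem NKL_le {r : ℝ} (h : 1 ≤ Real.log r) : (nk r : ℝ) ≤ Real.log r - Real.sqrt (Real.log r) := by
  refine Nat.floor_le ?_
  have h0 : 0 ≤ Real.log r := by linarith
  have h1 : 1 ≤ Real.sqrt (Real.log r) := by
    rw [Real.le_sqrt' (by norm_num)]
    simpa using h
  have h2 := Real.mul_self_sqrt h0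
  nlinarith

theorem NKL_ge (r : ℝ) : Real.log r - Real.sqrt (Real.log r) - 1 ≤ (nk r : ℝ) := by
  have h := Nat.lt_floor_add_one (Real.log r - Real.sqrt (Real.log r))
  change _ < (nk r : ℝ) + 1 at h
  linarith

theorem NKL_sq {r : ℕ → ℝ} (hr : Tendsto r atTop atTop) :
    Tendsto (fun k => Real.sqrt (Real.log (r k))) atTop atTop :=
  Real.tendsto_sqrt_atTop.comp (Real.tendsto_log_atTop.comp hr)

theorem NKL_proof : NKL_stmt := by
  refine ⟨fun r hr => ?_, fun K' hK => ?_, fun r N β C' δ lp ε hr hN hb hδ hlp hε => ?_⟩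
  · have h1 := NKL_sq hr
    have h2 : Tendsto (fun k => Real.log (r k) - Real.sqrt (Real.log (r k))) atTop atTop := by
      refine tendsto_atTop_mono' atTop ?_ h1
      filter_upwards [h1.eventually_ge_atTop 2] with k hk
      have h0 : 0 ≤ Real.log (r k) := by
        by_contra hneg
        push Not at hneg
        rw [Real.sqrt_eq_zero_of_nonpos hneg.le] at hk
        linarith
      have h3 := Real.mul_self_sqrt h0
      nlinarith
    exact tendsto_nat_floor_atTop.comp h2
  · refine ⟨Real.exp (1 + Real.log K' ^ 2), fun r hr => ?_⟩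
    have hr0 : 0 < r := lt_of_lt_of_le (Real.exp_pos _) hr
    have hL : 1 + Real.log K' ^ 2 ≤ Real.log r := by
      rw [Real.le_log_iff_exp_le hr0]
      exact hr
    have h1 := NKL_le (r := r) (by nlinarith [sq_nonneg (Real.log K')])
    have h2 : Real.log K' ≤ Real.sqrt (Real.log r) := by
      refine Real.le_sqrt_of_sq_le ?_
      linarith
    rw [le_div_iff₀ hK]
    calc Real.exp (nk r) * K' = Real.exp (nk r) * Real.exp (Real.log K') := by rw [Real.exp_log hK]
      _ = Real.exp (nk r + Real.log K') := (Real.exp_add _ _).symm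
      _ ≤ Real.exp (Real.log r) := Real.exp_le_exp.mpr (by linarith)
      _ = r := Real.exp_log hr0
  · have h1 := NKL_sq hr
    set B : ℝ := |1 - β| / 2 + ε with hB
    have hB0 : 0 ≤ B := by positivity
    set c : ℝ := |C' + 8 * δ| with hc
    have hc0 : 0 ≤ c := abs_nonneg _
    have hcc : C' + 8 * δ ≤ c := le_abs_self _
    filter_upwards [h1.eventually_ge_atTop (max 1 ((2 * B + c) / (ε / 2))), hb (β - ε) (by linarith),
      hr.eventually_gt_atTop 0] with k hk hbk hrk
    obtain ⟨hk1, hk2⟩ := max_le_iff.mp hk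
    have hL0 : 0 ≤ Real.log (r k) := by
      by_contra hneg
      push Not at hneg
      rw [Real.sqrt_eq_zero_of_nonpos hneg.le] at hk1
      linarith
    have hxx := Real.mul_self_sqrt hL0
    have hL1 : 1 ≤ Real.log (r k) := by nlinarith
    have hle := NKL_le hL1
    have hge := NKL_ge (r k)
    obtain ⟨x, hx⟩ : ∃ x, x = Real.sqrt (Real.log (r k)) := ⟨_, rfl⟩
    obtain ⟨L, hL⟩ : ∃ L, L = Real.log (r k) := ⟨_, rfl⟩
    obtain ⟨n, hn⟩ : ∃ n : ℝ, n = (nk (r k) : ℝ) := ⟨_, rfl⟩
    obtain ⟨l, hl⟩ : ∃ l : ℝ, l = Real.log (N k) := ⟨_, rfl⟩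
    have hNl : (β - ε) * L ≤ l := by
      rw [hL, hl, ← Real.log_rpow hrk]
      exact Real.log_le_log (Real.rpow_pos_of_pos hrk _) hbk
    rw [← hx] at hxx hle hge hk1 hk2
    rw [← hL] at hxx hle hge
    rw [← hn] at hle hge
    rw [← hL, ← hn, ← hl]
    rw [div_le_iff₀ (by positivity)] at hk2
    have h3 : (2 * B + c) * x ≤ ε / 2 * L := by
      rw [← hxx]
      nlinarith
    have h4 : B * (x + 1) + c ≤ (2 * B + c) * x := by nlinarith
    have h5 : (1 - β) / 2 * (L - n) ≤ |1 - β| / 2 * (x + 1) := by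
      have h6 : 0 ≤ L - n := by linarith
      have h7 : L - n ≤ x + 1 := by linarith
      have h8 : 1 - β ≤ |1 - β| := le_abs_self _
      have h9 := abs_nonneg (1 - β)
      calc (1 - β) / 2 * (L - n) ≤ |1 - β| / 2 * (L - n) := mul_le_mul_of_nonneg_right (by linarith) h6
        _ ≤ |1 - β| / 2 * (x + 1) := mul_le_mul_of_nonneg_left h7 (by linarith)
    have h6 : ε * (L - n) ≤ ε * (x + 1) := mul_le_mul_of_nonneg_left (by linarith) hε.le
    have h7 : B * (x + 1) = |1 - β| / 2 * (x + 1) + ε * (x + 1) := by rw [hB]; ring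
    nlinarith

end Pool.Agent.EN
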