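import Pool.Agent.helper25.EN.Spec

/-!
# INQ: inequalities for the entropy of a coin (project EN)
-/

set_option autoImplicit false

namespace EN

open Finset Real

theorem INQ_one (s t : ℝ) (hs : 0 ≤ s) (hs1 : s ≤ 1) (ht : 0 ≤ t) (ht1 : t ≤ 1)
    (h : t = 0 → s = 0) : s - t + (s - t) ^ 2 / 4 ≤ s * log (s / t) := by
  rcases eq_or_lt_of_le hs with hs0 | hs0
  · rw [← hs0]
    have h1 : (0 : ℝ) * log (0 / t) = 0 := zero_mul _
    rw [h1]
    nlinarith
  · have ht0 : 0 < t := by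
      rcases eq_or_lt_of_le ht with h0 | h0
      · have := h h0.symm
        linarith
      · exact h0
    obtain ⟨p, hp, hps⟩ : ∃ p, 0 < p ∧ s = p ^ 2 := ⟨√s, sqrt_pos.2 hs0, (sq_sqrt hs).symm⟩
    obtain ⟨q, hq, hqt⟩ : ∃ q, 0 < q ∧ t = q ^ 2 := ⟨√t, sqrt_pos.2 ht0, (sq_sqrt ht).symm⟩
    subst hps hqt
    have hp1 : p ≤ 1 := by nlinarith
    have hq1 : q ≤ 1 := by nlinarith
    have h1 : log (p ^ 2 / q ^ 2) = -(2 * log (q / p)) := by
      have h2 : p ^ 2 / q ^ 2 = (p / q) ^ 2 := by rw [div_pow]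
      have h3 : log (p / q) = -log (q / p) := by rw [← log_inv, inv_div]
      rw [h2, log_pow, h3]
      push_cast
      ring
    have h4 := Real.log_le_sub_one_of_pos (div_pos hq hp)
    have h5 : p ^ 2 * (q / p) = p * q := by field_simp
    have h6 : p ^ 2 * log (q / p) ≤ p ^ 2 * (q / p - 1) :=
      mul_le_mul_of_nonneg_left h4 (by positivity)
    have h7 : p ^ 2 * (q / p - 1) = p * q - p ^ 2 := by
      rw [mul_sub, h5]
      ring
    rw [h7] at h6
    rw [h1]
    have h8 : (p ^ 2 - q ^ 2) ^ 2 / 4 ≤ (p - q) ^ 2 := by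
      have h9 : (p + q) ^ 2 ≤ 4 := by nlinarith
      have h10 : (p ^ 2 - q ^ 2) ^ 2 = (p - q) ^ 2 * (p + q) ^ 2 := by ring
      rw [h10]
      nlinarith [mul_le_mul_of_nonneg_left h9 (sq_nonneg (p - q))]
    nlinarith

theorem INQ_kl (s t : ℝ) (hs : 0 ≤ s) (hs1 : s ≤ 1) (ht : 0 ≤ t) (ht1 : t ≤ 1)
    (h : t = 0 → s = 0) (h' : t = 1 → s = 1) : (s - t) ^ 2 / 2 ≤ kl s t := by
  have h1 := INQ_one s t hs hs1 ht ht1 h
  have h2 := INQ_one (1 - s) (1 - t) (by linarith) (by linarith) (by linarith) (by linarith)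
    (fun h3 => by
      have := h' (by linarith)
      linarith)
  unfold kl
  nlinarith

theorem INQ_phi (t : ℝ) : phi t = kl t (1 / 2) := by
  unfold phi kl
  have h1 : t / (1 / 2) = 2 * t := by ring
  have h2 : (1 - t) / (1 - 1 / 2) = 2 * (1 - t) := by ring
  rw [h1, h2]

theorem INQ_lg (t : ℝ) (ht : 0 ≤ t) : t * log (2 * t) ≤ t * (2 * t - 1) := by
  rcases eq_or_lt_of_le ht with h0 | h0
  · rw [← h0]
    simp
  · exact mul_le_mul_of_nonneg_left (Real.log_le_sub_one_of_pos (by linarith)) ht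

theorem INQ : INQ_stmt := by
  intro s t hs hs1 ht ht1 h h'
  have h1 := INQ_kl s t hs hs1 ht ht1 h h'
  have h2 := INQ_kl t (1 / 2) ht ht1 (by norm_num) (by norm_num) (by norm_num) (by norm_num)
  rw [← INQ_phi] at h2
  have u1 : phi t ≤ (2 * t - 1) ^ 2 := by
    have := INQ_lg t ht
    have := INQ_lg (1 - t) (by linarith)
    unfold phi
    nlinarith
  have u2 : phi s ≤ (2 * s - 1) ^ 2 := by
    have := INQ_lg s hs
    have := INQ_lg (1 - s) (by linarith)
    unfold phi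
    nlinarith
  refine ⟨le_trans (by positivity) h1, le_trans (by positivity) h2, ?_, ?_⟩
  · nlinarith
  · nlinarith [sq_nonneg (s - t - (t - 1 / 2))]

end EN
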